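import Pool.Agent.KACG.Slopes

/-!
Squad KACG, row S_EIG: trial functions give zeros of the discriminant.
-/

open scoped ComplexConjugate ContDiff

noncomputable section

namespace Pool.Agent.KACG.H40

open Finset

/-- orthonormal eigenfunctions with eigenvalues below `E` -/
structure Fam (L : ℝ) (V : ℝ → ℝ) (E : ℝ) (k : ℕ) (e : Fin k → ℝ → ℂ) (lm : Fin k → ℝ) : Prop where
  sol : ∀ j, TP L (e j) ∧ IsSol V ((lm j : ℝ) : ℂ) (e j)
  ort : ∀ i j, ∫ s in (0 : ℝ)..L, e i s * conj (e j s) = if i = j then 1 else 0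
  lt : ∀ j, lm j < E

theorem tp_sum {ι : Type} [Fintype ι] (L : ℝ) (w : ι → ℝ → ℂ) (h : ∀ j, TP L (w j)) (c : ι → ℂ) :
    TP L (fun s => ∑ j, c j * w j s) := by
  constructor
  · exact ContDiff.sum fun j _ => contDiff_const.mul (h j).1
  · intro s
    simp only [Finset.mul_sum]
    refine Finset.sum_congr rfl fun j _ => ?_
    rw [(h j).2 s]
    ring

theorem int_swap (L : ℝ) (u v : ℝ → ℂ) :
    (∫ s in (0 : ℝ)..L, u s * conj (v s)) = conj (∫ s in (0 : ℝ)..L, v s * conj (u s)) := by
  have h1 : ∀ a b : ℝ, conj (∫ s in Set.Ioc a b, v s * conj (u s))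
      = ∫ s in Set.Ioc a b, u s * conj (v s) := by
    intro a b
    rw [← integral_conj]
    congr 1
    funext s
    simp [mul_comm]
  rw [intervalIntegral, intervalIntegral, map_sub, h1, h1]

theorem int_self (L : ℝ) (u : ℝ → ℂ) :
    (∫ s in (0 : ℝ)..L, u s * conj (u s)) = ((mass L u : ℝ) : ℂ) := by
  unfold mass
  rw [← intervalIntegral.integral_ofReal]
  refine intervalIntegral.integral_congr fun s _ => ?_
  rw [Complex.mul_conj, Complex.normSq_eq_norm_sq]

theorem step (hone : OneStmt) {L : ℝ} {V : ℝ → ℝ} {E : ℝ} (hL : 0 < L) (hV : ContDiff ℝ ∞ V)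
    (hper : Function.Periodic V L) {ι : Type} [Fintype ι] (w : ι → ℝ → ℂ)
    (hw : ∀ j, TP L (w j))
    (hc : ∀ c : ι → ℂ, c ≠ 0 →
      enr L V (fun s => ∑ j, c j * w j s) < E * mass L (fun s => ∑ j, c j * w j s))
    (k : ℕ) (hk : k < Fintype.card ι) (e : Fin k → ℝ → ℂ) (lm : Fin k → ℝ) (F : Fam L V E k e lm) :
    ∃ (e' : Fin (k + 1) → ℝ → ℂ) (lm' : Fin (k + 1) → ℝ), Fam L V E (k + 1) e' lm' := by
  -- the coefficients
  let T : (ι → ℂ) →ₗ[ℂ] (Fin k → ℂ) :=
    (Matrix.of fun (j : Fin k) (i : ι) => ∫ s in (0 : ℝ)..L, w i s * conj (e j s)).mulVecLin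
  have hT : LinearMap.ker T ≠ ⊥ := by
    refine LinearMap.ker_ne_bot_of_finrank_lt ?_
    rw [Module.finrank_fintype_fun_eq_card, Module.finrank_fintype_fun_eq_card, Fintype.card_fin]
    exact hk
  obtain ⟨c, hcm, hc0⟩ := Submodule.exists_mem_ne_zero_of_ne_bot hT
  have hcT : ∀ j, ∑ i, (∫ s in (0 : ℝ)..L, w i s * conj (e j s)) * c i = 0 := by
    intro j
    have := congrFun (LinearMap.mem_ker.1 hcm) j
    simpa [T, Matrix.mulVec, dotProduct] using this
  have hint : ∀ i j, IntervalIntegrable (fun s => w i s * conj (e j s)) MeasureTheory.volume 0 L := by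
    intro i j
    refine Continuous.intervalIntegrable ?_ 0 L
    exact (hw i).1.continuous.mul (Complex.continuous_conj.comp (F.sol j).1.1.continuous)
  have hu : ∀ j, (∫ s in (0 : ℝ)..L, (∑ i, c i * w i s) * conj (e j s)) = 0 := by
    intro j
    have h1 : (fun s => (∑ i, c i * w i s) * conj (e j s))
        = fun s => ∑ i, c i * (w i s * conj (e j s)) := by
      funext s
      rw [Finset.sum_mul]
      refine Finset.sum_congr rfl fun i _ => ?_
      ring
    rw [h1, intervalIntegral.integral_finsetSum fun i _ => (hint i j).const_mul (c i)]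
    simp only [intervalIntegral.integral_const_mul]
    rw [← hcT j]
    exact Finset.sum_congr rfl fun i _ => mul_comm _ _
  obtain ⟨v, μ, v1, v2, v3, v4, v5⟩ := hone L V E hL hV hper k e lm F.sol F.ort
    ⟨_, tp_sum L w hw c, hu, hc c hc0⟩
  refine ⟨Fin.snoc e v, Fin.snoc lm μ, ?_, ?_, ?_⟩
  · intro j
    refine Fin.lastCases ?_ (fun j => ?_) j
    · rw [Fin.snoc_last, Fin.snoc_last]
      exact ⟨v1, v2⟩
    · rw [Fin.snoc_castSucc, Fin.snoc_castSucc]
      exact F.sol j
  · intro i j
    refine Fin.lastCases ?_ (fun i => ?_) i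
    · refine Fin.lastCases ?_ (fun j => ?_) j
      · rw [Fin.snoc_last, int_self, v3]
        simp
      · rw [Fin.snoc_last, Fin.snoc_castSucc, v4 j, if_neg]
        exact fun h => (Fin.castSucc_lt_last j).ne h.symm
    · refine Fin.lastCases ?_ (fun j => ?_) j
      · rw [Fin.snoc_last, Fin.snoc_castSucc, int_swap, v4 i, map_zero, if_neg]
        exact fun h => (Fin.castSucc_lt_last i).ne h
      · rw [Fin.snoc_castSucc, Fin.snoc_castSucc, F.ort i j]
        simp
  · intro j
    refine Fin.lastCases ?_ (fun j => ?_) j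
    · rw [Fin.snoc_last]
      exact v5
    · rw [Fin.snoc_castSucc]
      exact F.lt j

/-- S_EIG: trial functions give zeros of the discriminant. -/
theorem eig (hone : OneStmt) (hsim : SimStmt) (hflo : FloStmt) : EigStmt := by
  intro L V E ι _ w hL hV hper hw hc
  have key : ∀ k : ℕ, k ≤ Fintype.card ι →
      ∃ (e : Fin k → ℝ → ℂ) (lm : Fin k → ℝ), Fam L V E k e lm := by
    intro k
    induction k with
    | zero =>
      intro _
      exact ⟨fun j => j.elim0, fun j => j.elim0, fun j => j.elim0, fun j => j.elim0,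
        fun j => j.elim0⟩
    | succ k ih =>
      intro hk
      obtain ⟨e, lm, F⟩ := ih (by omega)
      exact step hone hL hV hper w hw hc k (by omega) e lm F
  obtain ⟨e, lm, F⟩ := key _ le_rfl
  have hne : ∀ i, ∃ s, e i s ≠ 0 := by
    intro i
    by_contra h
    push Not at h
    have := F.ort i i
    rw [if_pos rfl] at this
    simp [h] at this
  have hinj : Function.Injective lm := by
    intro i j hij
    by_contra hne'
    obtain ⟨a, ha⟩ := hsim L V ((lm i : ℝ) : ℂ) (e i) (e j) hL hV.continuous (F.sol i).1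
      (F.sol j).1 (F.sol i).2 (by rw [hij]; exact (F.sol j).2) (hne i)
    have h1 := F.ort i j
    rw [if_neg hne'] at h1
    have h2 : (∫ s in (0 : ℝ)..L, e i s * conj (e j s))
        = conj a * ∫ s in (0 : ℝ)..L, e i s * conj (e i s) := by
      rw [← intervalIntegral.integral_const_mul]
      refine intervalIntegral.integral_congr fun s _ => ?_
      change e i s * conj (e j s) = conj a * (e i s * conj (e i s))
      rw [ha s, map_mul]
      ring
    rw [h1, F.ort i i, if_pos rfl, mul_one] at h2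
    have h3 : a = 0 := by
      have := congrArg conj h2
      simpa using this.symm
    obtain ⟨s, hs⟩ := hne j
    exact hs (by rw [ha s, h3, zero_mul])
  refine ⟨Finset.univ.image lm, ?_, ?_⟩
  · rw [Finset.card_image_of_injective _ hinj, Finset.card_univ, Fintype.card_fin]
  · intro z hz
    obtain ⟨j, _, rfl⟩ := Finset.mem_image.1 hz
    refine ⟨F.lt j, ?_⟩
    rw [hflo L V hV.continuous ((lm j : ℝ) : ℂ) Complex.I (e j) (F.sol j).2 (hne j) (F.sol j).1.2
      Complex.I_ne_zero, Complex.inv_I]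
    ring

end Pool.Agent.KACG.H40
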